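import Pool.Agent.Run7.h848.PF.Cut

/-!
# Cycle class maps of the products with a fixed variety over a finite field: definitions
-/

set_option autoImplicit false

open CategoryTheory Limits MonoidalCategory Module
open Pool.Agent.Y112.SR Pool.Agent.Y112.KD Pool.Agent.N64.AF
open Pool.Agent.Run7.h848.PF

namespace Pool.Agent.Run7.h848.CM

universe v u w t x

/-- The data of the cycle class maps of the products `U × Y`, for a fixed smooth variety `U` over the
field with `q` elements and a fixed index `m ≥ 0`. In the intended use `C` is the category of the
smooth projective varieties `Y` over this field with the groups `CH^*(Y × Z) ⊗ ℚ_ℓ` (all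
codimensions) as morphisms, `Λ = ℚ_ℓ`, `M Y` is the sum of the groups `CH^j(U × Y, m) ⊗ ℚ_ℓ` over all `j`,
`D Y` the sum of the groups `H^(2 j - m)((U × Y)_𝔽̄, ℚ_ℓ(j))^G`, and `c` is the sum of the cycle class maps
`c^(2 j - m, j)`; correspondences act on both, and the cycle class maps are compatible with this
action. `fr Y` is the correspondence of the Frobenius endomorphism of `Y` (it acts by pull-back). The
field `unit` says that the cycle class maps of `U` itself are injective (for `U` the point this is the
theorem of Quillen on the K-groups of finite fields). -/
structure CycleMap (C : Type u) [Category.{v} C] [Preadditive C] [MonoidalCategory C]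
    (Λ : Type t) [Field Λ] [Linear Λ C] where
  /-- the Frobenius endomorphisms -/
  fr : ∀ Y : C, Y ⟶ Y
  /-- the higher Chow groups of `U × Y` -/
  M : C ⥤ ModuleCat.{x} Λ
  [additiveM : M.Additive]
  [linearM : M.Linear Λ]
  /-- the invariants of the Galois group on the cohomology of `U × Y` -/
  D : C ⥤ ModuleCat.{x} Λ
  [additiveD : D.Additive]
  [linearD : D.Linear Λ]
  /-- the cycle class maps -/
  c : M ⟶ D
  unit : Function.Injective (c.app (𝟙_ C))

attribute [instance] CycleMap.additiveM CycleMap.linearM CycleMap.additiveD CycleMap.linearD

namespace CycleMap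

variable {C : Type u} [Category.{v} C] [Preadditive C] [MonoidalCategory C]

section

variable {Λ : Type t} [Field Λ] [Linear Λ C] (A : CycleMap.{v, u, t, x} C Λ)

/-- The cycle class maps of `U × Y` are injective. -/
def Inj (Y : C) : Prop := Function.Injective (A.c.app Y)

/-- The cycle class maps of `U × Y` are onto. -/
def Onto (Y : C) : Prop := Function.Surjective (A.c.app Y)

/-- The elements of the kernel of the cycle class map of `U × Y` on which the Frobenius endomorphism
of `Y` acts as multiplication by `a`. -/
def eig (Y : C) (a : Λ) : Submodule Λ (A.M.obj Y) :=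
  LinearMap.ker (A.c.app Y).hom ⊓ Module.End.eigenspace (A.M.map (A.fr Y)).hom a

/-- The kernel of the cycle class map of `U × Y` is the sum of its parts on which the Frobenius
endomorphism of `Y` acts as multiplication by a power of `q`. This is true for all `Y` if `U` is the
point (these are the parts in the groups `CH^j(Y, m)`). -/
def Split (q : Λ) (Y : C) : Prop :=
  LinearMap.ker (A.c.app Y).hom ≤ ⨆ j : ℕ, A.eig Y (q ^ j)

end

variable [MonoidalPreadditive C] [SymmetricCategory C] [RightRigidCategory C]
  {Λ : Type t} [Field Λ] [Linear Λ C] [MonoidalLinear Λ C] (A : CycleMap.{v, u, t, x} C Λ)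

/-- The strong form of the conjecture of Tate for `Y` and the number `a`: the dimension of the
generalized eigenspace of Frobenius for `a` on the cohomology of `Y` is (at most) the rank of the
group of the cycles on `Y` on which Frobenius acts as `a`, modulo numerical equivalence. For
`a = q ^ j` these are the cycles of codimension `j`. It is true if `a` is not an eigenvalue. -/
def Tate {K : Type w} [Field K] [Algebra Λ K] (R : SuperRealisation C K) (Y : C) (a : Λ) : Prop :=
  StrongTate Λ R (A.fr Y) a

/-- The kernels of the cycle class maps of the products `U × Y ^ n` are large: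
`dim ker (c on U × Y ^ (n + 1)) ≥ (n + 1) ρ(Y ^ n)` for all `n ≥ 0`, where `ρ` is the rank of the group
of the cycles modulo numerical equivalence. -/
def Grows (Y : C) : Prop :=
  ∀ n : ℕ, (((n + 1) * numRank Λ (tp Y n) : ℕ) : ℕ∞) ≤ kerDim A.c (tp Y (n + 1))

end CycleMap

end Pool.Agent.Run7.h848.CM
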