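import Pool.Agent.Run7.h848.CM.Main
import Pool.Agent.Run7.h848.XG.CK

/-!
# Cycle class maps: exponentially many cycles
-/

set_option autoImplicit false
set_option linter.unusedSectionVars false

open CategoryTheory Limits MonoidalCategory Module Filter Topology
open Pool.Agent.Y112.SR Pool.Agent.Y112.KD Pool.Agent.N64.AF
open Pool.Agent.Y116.MT (tr)
open Pool.Agent.Run7.h184.AJ Pool.Agent.Run7.h848.PF
open scoped ENNReal

namespace Pool.Agent.Run7.h848.CM

universe v u w t x

variable {C : Type u} [Category.{v} C] [Preadditive C] [MonoidalCategory C]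
  [MonoidalPreadditive C] [SymmetricCategory C] [RightRigidCategory C]
  {Λ : Type t} [Field Λ] [CharZero Λ] [Linear Λ C] [MonoidalLinear Λ C]
  {K : Type w} [Field K] [IsAlgClosed K] [Algebra Λ K] {R : SuperRealisation C K}

/-- The dimensions of the spaces of cycles on the powers `Y ^ (2 n)` modulo smash-nilpotence are at
least `∑ i ≤ n, (n choose i) ρ (Y ^ (2 (n - i)))`, and this is at least
`(b ^ 2 + 1) ^ n / (n + 1) ^ (b ^ 2)`. -/
def ExpoMany (Λ : Type t) [Field Λ] [Linear Λ C] [MonoidalLinear Λ C]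
    {K : Type w} [Field K] (R : SuperRealisation C K) (Y : C) : Prop :=
  ∀ n : ℕ, ((∑ i ∈ Finset.range (n + 1), n.choose i * numRank Λ (tp Y (2 * (n - i))) : ℕ) : ℕ∞) ≤
      dimE Λ ((𝟙_ C ⟶ tp Y (2 * n)) ⧸ smashSub Λ (tp Y (2 * n))) ∧
    (bt R Y ^ 2 + 1) ^ n ≤ (n + 1) ^ (bt R Y ^ 2) *
      ∑ i ∈ Finset.range (n + 1), n.choose i * numRank Λ (tp Y (2 * (n - i)))

/-- A functor with an element fixed by a numerically trivial endomorphism. -/
theorem expoMany_of_fixed [IsIdempotentComplete C] {Y : C} [ExactPairing Y Y] (hY : IsPow Λ R Y)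
    (F : C ⥤ ModuleCat.{x} Λ) [F.Additive] {v : F.obj Y} (hv : v ≠ 0) (y : Y ⟶ Y) (hy : NumTriv y)
    (hf : (F.map y).hom v = v) : ExpoMany Λ R Y := by
  have hnot : ¬ ∀ y : End (tp Y 1), NumTriv (y : tp Y 1 ⟶ tp Y 1) → IsNilpotent y := by
    intro hall
    obtain ⟨k, hk⟩ := Pool.Agent.Run7.h848.XG.nil_one hY.real Y hall (y : End Y) hy
    have h1 : ∀ k : ℕ, (F.map ((show End Y from y) ^ k : End Y)).hom v = v := by
      intro k
      induction k with
      | zero =>
        change (F.map (𝟙 Y)).hom v = v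
        rw [F.map_id]
        rfl
      | succ k ih =>
        rw [pow_succ, End.mul_def, F.map_comp, ModuleCat.hom_comp, LinearMap.comp_apply]
        change (F.map ((show End Y from y) ^ k : End Y)).hom ((F.map y).hom v) = v
        rw [hf, ih]
    have h2 := h1 k
    rw [hk] at h2
    apply hv
    rw [← h2]
    change (F.map (0 : Y ⟶ Y)).hom v = 0
    rw [F.map_zero]
    rfl
  intro n
  have h1 := Pool.Agent.Run7.h848.XG.many_smash hY 1 hnot n
  have h2 := Pool.Agent.Run7.h848.XG.sum_ge hY 1 n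
  rw [mul_one] at h1 h2
  rw [one_mul] at h2
  exact ⟨h1, h2⟩

/-- **Exponentially many cycles.** -/
theorem CycleMap.expo_many [IsIdempotentComplete C] (A : CycleMap.{v, u, t, x} C Λ) {Y : C}
    [ExactPairing Y Y] (hY : IsPow Λ R Y) {a : Λ} (ht : A.Tate R Y a) (hne : A.eig Y a ≠ ⊥) :
    ExpoMany Λ R Y := by
  obtain ⟨v, hv0, hv⟩ := A.exists_vec hne
  obtain ⟨e, he, he'⟩ := exists_kill hY.real (kerF A.c) A.kerUnit (A.fr Y) a ht v hv
  refine expoMany_of_fixed hY (kerF A.c) hv0 (𝟙 Y - e) ?_ ?_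
  · have h1 : 𝟙 Y - e = -(e - 𝟙 Y) := by abel
    rw [h1]
    exact (numIdeal Λ Y Y).neg_mem he'
  · have h1 : (kerF A.c).map (𝟙 Y - e) = 𝟙 _ - (kerF A.c).map e := by
      rw [Functor.map_sub, CategoryTheory.Functor.map_id]
    rw [h1]
    change v - ((kerF A.c).map e).hom v = v
    rw [he, sub_zero]

end Pool.Agent.Run7.h848.CM
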