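import Pool.Agent.Run7.h848.CM.Defs
import Pool.Agent.Run7.h848.PF.Main

/-!
# Cycle class maps of the products with a fixed variety over a finite field
-/

set_option autoImplicit false
set_option linter.unusedSectionVars false

open CategoryTheory Limits MonoidalCategory Module Filter Topology
open Pool.Agent.Y112.SR Pool.Agent.Y112.KD Pool.Agent.N64.AF
open Pool.Agent.Run7.h184.AJ Pool.Agent.Run7.h848.PF
open scoped ENNReal

namespace Pool.Agent.Run7.h848.CM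

universe v u w t x

variable {C : Type u} [Category.{v} C] [Preadditive C] [MonoidalCategory C]
  [MonoidalPreadditive C] [SymmetricCategory C] [RightRigidCategory C]
  {Λ : Type t} [Field Λ] [CharZero Λ] [Linear Λ C] [MonoidalLinear Λ C]
  {K : Type w} [Field K] [Algebra Λ K] {R : SuperRealisation C K}

namespace CycleMap

variable (A : CycleMap.{v, u, t, x} C Λ)

lemma kerUnit : Subsingleton ((kerF A.c).obj (𝟙_ C)) := (sub_ker A.c _).2 A.unit

/-- An element of the kernel as an element of the kernel functor. -/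
lemma exists_vec {Y : C} {a : Λ} (h : A.eig Y a ≠ ⊥) :
    ∃ v : (kerF A.c).obj Y, v ≠ 0 ∧ ((kerF A.c).map (A.fr Y)).hom v = a • v := by
  obtain ⟨v, hv, hv0⟩ := (Submodule.ne_bot_iff _).1 h
  let v' : (kerF A.c).obj Y := (⟨v, hv.1⟩ : LinearMap.ker (A.c.app Y).hom)
  refine ⟨v', fun h0 => hv0 (congrArg Subtype.val h0), ?_⟩
  apply Subtype.ext
  exact Module.End.mem_eigenspace_iff.1 hv.2

theorem grows (hR : IsReal Λ R) (Y : C) (a : Λ) (ht : A.Tate R Y a) (hne : A.eig Y a ≠ ⊥) :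
    A.Grows Y := by
  intro n
  obtain ⟨v, hv0, hv⟩ := A.exists_vec hne
  obtain ⟨e, he, he'⟩ := exists_kill hR (kerF A.c) A.kerUnit (A.fr Y) a ht v hv
  change _ ≤ dimE Λ ((kerF A.c).obj (tp Y (n + 1)))
  by_cases hfin : Module.Finite Λ ((kerF A.c).obj (tp Y (n + 1)))
  · rw [dimE_eq]
    exact_mod_cast phantom hR (kerF A.c) hv0 he he' n
  · rw [dimE_top hfin]
    exact le_top

lemma exists_eig {q : Λ} {Y : C} (hs : A.Split q Y) (h : ¬ A.Inj Y) :
    ∃ j : ℕ, A.eig Y (q ^ j) ≠ ⊥ := by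
  by_contra hcon
  push Not at hcon
  apply h
  have h1 : LinearMap.ker (A.c.app Y).hom = ⊥ := by
    rw [eq_bot_iff]
    exact hs.trans (iSup_le fun j => (hcon j).le)
  exact LinearMap.ker_eq_bot.1 h1

variable [IsAlgClosed K]

theorem eig_bot {T : C} [ExactPairing T T] (h : IsPow Λ R T) {N : ℕ∞} (hN : N ≠ ⊤)
    (hlim : RatioTo Λ T (fun n => kerDim A.c (tp T n)) N) (n : ℕ) (a : Λ)
    (ht : A.Tate R (tp T n) a) : A.eig (tp T n) a = ⊥ := by
  by_contra hne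
  obtain ⟨N', h1, -, h3⟩ := law h (kerF A.c)
  have h4 : (N' : ℝ≥0∞) = N := tendsto_nhds_unique h1 hlim
  have h5 : N' = N := by exact_mod_cast h4
  rw [h5] at h3
  obtain ⟨h6, -⟩ := h3 hN
  obtain ⟨v, hv0, hv⟩ := A.exists_vec hne
  exact hv0 (eig_zero h.real (kerF A.c) A.kerUnit (h6 n).2.2 (A.fr _) a ht v hv)

/-- **The law, the gap, and the consequences of the conjecture of Tate.** -/
theorem main {T : C} [ExactPairing T T] (h : IsPow Λ R T) :
    (∀ (Y : C) (a : Λ), A.Tate R Y a → A.eig Y a ≠ ⊥ → A.Grows Y) ∧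
    (∀ (q : Λ) (Y : C), A.Split q Y → (∀ j : ℕ, A.Tate R Y (q ^ j)) → ¬ A.Inj Y → A.Grows Y) ∧
    (∃ Nker Ncok : ℕ∞, RatioTo Λ T (fun n => kerDim A.c (tp T n)) Nker ∧
      RatioTo Λ T (fun n => cokerDim A.c (tp T n)) Ncok ∧
      (Nker = 0 ↔ ∀ n, A.Inj (tp T n)) ∧ (Ncok = 0 ↔ ∀ n, A.Onto (tp T n)) ∧
      (∀ (n : ℕ) (a : Λ), A.Tate R (tp T n) a → A.eig (tp T n) a ≠ ⊥ → Nker = ⊤) ∧
      ∀ q : Λ, (∀ n, A.Split q (tp T n) ∧ ∀ j : ℕ, A.Tate R (tp T n) (q ^ j)) →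
        Nker = 0 ∨ Nker = ⊤) ∧
    ∀ m n : ℕ, 128 * (m + 1) ^ 2 * bt R T ^ (2 * m + 6) ≤ 2 * n →
      (¬ A.Inj (tp T m) → Large Λ R T n (kerDim A.c (tp T (2 * n)))) ∧
      (¬ A.Onto (tp T m) → Large Λ R T n (cokerDim A.c (tp T (2 * n)))) := by
  refine ⟨fun Y a => A.grows h.real Y a, fun q Y hs ht hY => ?_, ?_, fun m n hn =>
    ⟨fun hm => gap h (kerF A.c) hn fun hs => hm ((sub_ker A.c _).1 hs),
      fun hm => gap h (cokF A.c) hn fun hs => hm ((sub_cok A.c _).1 hs)⟩⟩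
  · obtain ⟨j, hj⟩ := A.exists_eig hs hY
    exact A.grows h.real Y _ (ht j) hj
  obtain ⟨N, h1, h2, -⟩ := law h (kerF A.c)
  obtain ⟨N', h1', h2', -⟩ := law h (cokF A.c)
  have h3 : N = 0 ↔ ∀ n, A.Inj (tp T n) := h2.trans (forall_congr' fun n => sub_ker A.c _)
  have key : ∀ (n : ℕ) (a : Λ), A.Tate R (tp T n) a → A.eig (tp T n) a ≠ ⊥ → N = ⊤ := by
    intro n a ht hne
    by_contra hN
    exact hne (A.eig_bot h hN h1 n a ht)
  refine ⟨N, N', h1, h1', h3, h2'.trans (forall_congr' fun n => sub_cok A.c _), key, ?_⟩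
  intro q hq
  by_cases hN : ∀ n, A.Inj (tp T n)
  · exact Or.inl (h3.2 hN)
  · obtain ⟨n, hn⟩ := not_forall.1 hN
    obtain ⟨j, hj⟩ := A.exists_eig (hq n).1 hn
    exact Or.inr (key n _ ((hq n).2 j) hj)

end CycleMap

end Pool.Agent.Run7.h848.CM
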